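import Pool.Agent.W5h14.Circ.Link

/-!
# Cocircuits of cographic matroids
-/

set_option autoImplicit false
set_option linter.unusedSectionVars false

namespace Pool.Agent.W5h14.Circ

open Finset Pool.Agent.TH462.T4 Pool.Agent.TH676.T4 Pool.Agent.TH676.Blk

variable {V E : Type} [Fintype V] [DecidableEq V] [Fintype E] [DecidableEq E]

/-- an even set gives a linear form -/
theorem RepCo.form {src dst : E → V} {n : ℕ} {vec : E → Fin n → ZMod 2} (hv : RepCo src dst vec)
    (a : E → ZMod 2) (ha : ∀ v, ∑ e, a e * star src dst v e = 0) :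
    ∃ G : (Fin n → ZMod 2) →ₗ[ZMod 2] ZMod 2, ∀ e, G (vec e) = a e := by
  classical
  let ψ : (E → ZMod 2) →ₗ[ZMod 2] (Fin n → ZMod 2) := Fintype.linearCombination (ZMod 2) vec
  have hψ : ∀ x, ψ x = ∑ e, x e • vec e := fun x => Fintype.linearCombination_apply _ _ _
  let f : (E → ZMod 2) →ₗ[ZMod 2] ZMod 2 := ∑ e, a e • LinearMap.proj e
  have hf : ∀ x, f x = ∑ e, a e * x e := by
    intro x
    simp [f, LinearMap.sum_apply]
  have h1 : f ∈ (LinearMap.ker ψ).dualAnnihilator := by
    rw [Submodule.mem_dualAnnihilator]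
    intro w hw
    rw [LinearMap.mem_ker, hψ] at hw
    have hx2 := (hv w).mp hw
    have hle : Submodule.span (ZMod 2) (Set.range (star src dst)) ≤ LinearMap.ker f := by
      refine Submodule.span_le.mpr ?_
      rintro _ ⟨v, rfl⟩
      simp only [SetLike.mem_coe, LinearMap.mem_ker]
      rw [hf]
      exact ha v
    exact hle hx2
  rw [← LinearMap.range_dualMap_eq_dualAnnihilator_ker] at h1
  obtain ⟨G, hG⟩ := h1
  refine ⟨G, fun e => ?_⟩
  have h2 : ψ (Pi.single e 1) = vec e := by
    rw [hψ, Finset.sum_eq_single e]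
    · simp
    · intro b _ hb
      rw [Pi.single_eq_of_ne hb, zero_smul]
    · intro h; exact absurd (Finset.mem_univ e) h
  have h3 : G (ψ (Pi.single e 1)) = f (Pi.single e 1) := by rw [← hG]; rfl
  rw [h2, hf, Finset.sum_eq_single e] at h3
  · rw [h3, Pi.single_eq_same, mul_one]
  · intro b _ hb
    rw [Pi.single_eq_of_ne hb, mul_zero]
  · intro h; exact absurd (Finset.mem_univ e) h

theorem RepCo.even {src dst : E → V} {n : ℕ} {vec : E → Fin n → ZMod 2} (hv : RepCo src dst vec)
    (G : (Fin n → ZMod 2) →ₗ[ZMod 2] ZMod 2) (v : V) :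
    ∑ e, G (vec e) * star src dst v e = 0 := by
  have h1 := (hv (star src dst v)).2 (Submodule.subset_span ⟨v, rfl⟩)
  have h2 := congrArg G h1
  rw [map_sum, map_zero] at h2
  rw [← h2]
  refine sum_congr rfl fun e _ => ?_
  rw [map_smul, smul_eq_mul, mul_comm]

theorem star_jv {src dst : E → V} {e : E} {x y : V} (h : JV src dst e x y) (v : V) :
    star src dst v e = (if x = v then 1 else 0) + (if y = v then 1 else 0) := by
  unfold TH676.Blk.star
  rcases h with ⟨h1, h2⟩ | ⟨h1, h2⟩
  · rw [h1, h2]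
  · rw [h1, h2, add_comm]

theorem z2_add {a b : ZMod 2} (h : a + b = 0) : a = b := by
  revert a b; decide

/-- **Cocircuits with few elements give circuits with few edges.** -/
theorem cl_of_coc {src dst : E → V} {n : ℕ} {vec : E → Fin n → ZMod 2} {S : Set (Fin n → ZMod 2)}
    (hv : RepCo src dst vec) (hinj : Function.Injective vec) (hr : Set.range vec = S) {K : ℕ}
    (hK : 2 ≤ K)
    (h : ∀ f : (Fin n → ZMod 2) →ₗ[ZMod 2] ZMod 2, {s ∈ S | f s ≠ 0}.Nonempty →
      (∀ f' : (Fin n → ZMod 2) →ₗ[ZMod 2] ZMod 2, {s ∈ S | f' s ≠ 0} ⊆ {s ∈ S | f s ≠ 0} →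
        {s ∈ S | f' s ≠ 0}.Nonempty → {s ∈ S | f' s ≠ 0} = {s ∈ S | f s ≠ 0}) →
      {s ∈ S | f s ≠ 0}.ncard ≤ K) : Cl K src dst := by
  classical
  intro k hk c hc
  have hadj : ∀ i, ∃ e, JV src dst e (c i) (c (i + 1)) := fun i => (hc.adj i).2
  choose ε hε using hadj
  -- the edges are different
  have hεi : ∀ i j, i < k → j < k → ε i = ε j → i = j := by
    intro i j hi hj hij
    have h1 := hε i
    have h2 := hε j
    rw [← hij] at h2
    have h3 : (c i = c j ∧ c (i + 1) = c (j + 1)) ∨ (c i = c (j + 1) ∧ c (i + 1) = c j) := by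
      rcases h1 with ⟨a1, a2⟩ | ⟨a1, a2⟩ <;> rcases h2 with ⟨b1, b2⟩ | ⟨b1, b2⟩
      · exact Or.inl ⟨a1.symm.trans b1, a2.symm.trans b2⟩
      · exact Or.inr ⟨a1.symm.trans b1, a2.symm.trans b2⟩
      · exact Or.inr ⟨a2.symm.trans b2, a1.symm.trans b1⟩
      · exact Or.inl ⟨a2.symm.trans b2, a1.symm.trans b1⟩
    rcases h3 with ⟨h3, _⟩ | ⟨h3, h4⟩
    · exact hc.inj i j hi hj h3
    · exfalso
      rw [hc.eq_iff] at h3 h4
      have e1 : i ≡ j + 1 [MOD k] := h3
      have e2 : i + 1 ≡ j [MOD k] := h4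
      have e3 : j + 2 ≡ j + 0 [MOD k] := (e1.add_right 1).symm.trans e2
      have e4 : 2 ≡ 0 [MOD k] := Nat.ModEq.add_left_cancel' j e3
      have e5 : 2 % k = 0 % k := e4
      rw [Nat.mod_eq_of_lt (by omega), Nat.zero_mod] at e5
      omega
  -- the even set
  let a : E → ZMod 2 := fun e => if ∃ i < k, ε i = e then 1 else 0
  have hsum : ∀ (F : E → ZMod 2), (∀ e, F e ≠ 0 → ∃ i < k, ε i = e) →
      ∑ e, F e = ∑ i ∈ range k, F (ε i) := by
    intro F hF
    have h1 : ∑ i ∈ range k, F (ε i) = ∑ e ∈ (range k).image ε, F e := by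
      rw [sum_image]
      intro i hi j hj hij
      exact hεi i j (by simpa using hi) (by simpa using hj) hij
    rw [h1]
    symm
    refine sum_subset (subset_univ _) fun e _ he => ?_
    by_contra h2
    obtain ⟨i, hi, rfl⟩ := hF e h2
    exact he (mem_image_of_mem _ (mem_range.2 hi))
  have haε : ∀ i < k, a (ε i) = 1 := fun i hi => if_pos ⟨i, hi, rfl⟩
  have haeven : ∀ v, ∑ e, a e * star src dst v e = 0 := by
    intro v
    rw [hsum (fun e => a e * star src dst v e) (fun e he => by
      by_contra h2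
      have : a e = 0 := if_neg h2
      rw [this, zero_mul] at he
      exact he rfl)]
    have h1 : ∀ i ∈ range k, a (ε i) * star src dst v (ε i) =
        (if c i = v then 1 else 0) + (if c (i + 1) = v then 1 else 0) := by
      intro i hi
      rw [haε i (mem_range.1 hi), one_mul, star_jv (hε i)]
    rw [sum_congr rfl h1, sum_add_distrib]
    have h2 : ∑ i ∈ range k, (if c (i + 1) = v then (1 : ZMod 2) else 0) =
        ∑ i ∈ range k, (if c i = v then (1 : ZMod 2) else 0) := by
      have h3 := sum_range_succ' (fun i => if c i = v then (1 : ZMod 2) else 0) k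
      have h4 := sum_range_succ (fun i => if c i = v then (1 : ZMod 2) else 0) k
      rw [h4] at h3
      have h5 : c k = c 0 := by
        have := hc.per 0
        rwa [Nat.zero_add] at this
      rw [h5] at h3
      exact (add_right_cancel h3).symm
    rw [h2]
    exact CharTwo.add_self_eq_zero _
  obtain ⟨G, hG⟩ := RepCo.form hv a haeven
  have hD : {s ∈ S | G s ≠ 0} = (((range k).image (fun i => vec (ε i)) : Finset _) : Set _) := by
    ext s
    rw [← hr]
    simp only [coe_image, coe_range, Set.mem_image, Set.mem_Iio]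
    constructor
    · rintro ⟨⟨e, rfl⟩, h1⟩
      rw [hG] at h1
      have h2 : ∃ i < k, ε i = e := by
        by_contra h2
        exact h1 (if_neg h2)
      obtain ⟨i, hi, rfl⟩ := h2
      exact ⟨i, hi, rfl⟩
    · rintro ⟨i, hi, rfl⟩
      refine ⟨⟨_, rfl⟩, ?_⟩
      rw [hG, haε i hi]
      exact one_ne_zero
  have hcard : {s ∈ S | G s ≠ 0}.ncard = k := by
    rw [hD, Set.ncard_coe_finset, card_image_of_injOn, card_range]
    intro i hi j hj hij
    exact hεi i j (by simpa using hi) (by simpa using hj) (hinj hij)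
  have hle := h G ?_ ?_
  · omega
  · rw [hD]
    exact ⟨vec (ε 0), by
      simp only [coe_image, coe_range, Set.mem_image, Set.mem_Iio]
      exact ⟨0, by omega, rfl⟩⟩
  · intro f' hsub hne
    -- the values are constant
    have hstep : ∀ i, i + 1 < k → f' (vec (ε (i + 1))) = f' (vec (ε i)) := by
      intro i hi
      have h1 := RepCo.even hv f' (c (i + 1))
      rw [hsum (fun e => f' (vec e) * star src dst (c (i + 1)) e) (fun e he => by
        have h2 : f' (vec e) ≠ 0 := fun h3 => he (by rw [h3, zero_mul])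
        have h3 : vec e ∈ {s ∈ S | G s ≠ 0} := hsub ⟨by rw [← hr]; exact ⟨e, rfl⟩, h2⟩
        have h4 := h3.2
        rw [hG] at h4
        by_contra h5
        exact h4 (if_neg h5))] at h1
      have h2 : ∀ j ∈ range k, f' (vec (ε j)) * star src dst (c (i + 1)) (ε j) =
          (if j = i + 1 then f' (vec (ε (i + 1))) else 0) + (if j = i then f' (vec (ε i)) else 0) := by
        intro j hj
        rw [mem_range] at hj
        rw [star_jv (hε j), mul_add]
        congr 1
        · by_cases h3 : j = i + 1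
          · subst h3; simp
          · have h4 : c j ≠ c (i + 1) := fun h4 => h3 (hc.inj _ _ hj hi h4)
            rw [if_neg h4, if_neg h3, mul_zero]
        · by_cases h3 : j = i
          · subst h3; simp
          · have h4 : c (j + 1) ≠ c (i + 1) := by
              intro h4
              rw [hc.eq_iff] at h4
              have h5 : j % k = i % k := Nat.ModEq.add_right_cancel' 1 h4
              rw [Nat.mod_eq_of_lt hj, Nat.mod_eq_of_lt (by omega)] at h5
              exact h3 h5
            rw [if_neg h4, if_neg h3, mul_zero]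
      rw [sum_congr rfl h2, sum_add_distrib, sum_ite_eq', sum_ite_eq', if_pos (mem_range.2 hi),
        if_pos (mem_range.2 (by omega))] at h1
      exact z2_add h1
    have hconst : ∀ i, i < k → f' (vec (ε i)) = f' (vec (ε 0)) := by
      intro i
      induction i with
      | zero => intro _; rfl
      | succ i ih =>
        intro hi
        rw [hstep i hi]
        exact ih (by omega)
    refine Set.Subset.antisymm hsub fun s hs => ?_
    obtain ⟨t, ht⟩ := hne
    have ht2 := hsub ht
    rw [hD] at hs ht2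
    simp only [coe_image, coe_range, Set.mem_image, Set.mem_Iio] at hs ht2
    obtain ⟨i, hi, rfl⟩ := hs
    obtain ⟨j, hj, rfl⟩ := ht2
    refine ⟨by rw [← hr]; exact ⟨_, rfl⟩, ?_⟩
    have h1 := ht.2
    rw [hconst j hj] at h1
    rw [hconst i hi]
    exact h1

/-- the form of the theorem used for matroids -/
theorem nz15 {src dst : E → V} (hC : Cl 15 src dst) (hPM : ¬ TH499.TF.PM src dst)
    (hB : ∀ Y : Finset V, (TH499.TF.dlt src dst Y).card ≠ 1) : TH499.TF.NZ src dst := by
  have h1 : ¬ PetMinor src dst := by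
    rintro ⟨B, b1, b2, b3⟩
    -- the pairs as numbers
    let bt : TH499.TF.Pr → Fin 10 := fun s =>
      if s.1 = {0, 1} then 0 else if s.1 = {2, 3} then 1 else if s.1 = {0, 4} then 2
      else if s.1 = {1, 2} then 3 else if s.1 = {3, 4} then 4 else if s.1 = {2, 4} then 5
      else if s.1 = {1, 4} then 6 else if s.1 = {1, 3} then 7 else if s.1 = {0, 3} then 8 else 9
    have hinj : ∀ s t : TH499.TF.Pr, bt s = bt t → s = t := by decide
    have hadj : ∀ s t : TH499.TF.Pr, Disjoint s.1 t.1 →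
        (bt s, bt t) ∈ petEdges ∨ (bt t, bt s) ∈ petEdges := by decide
    refine hPM ⟨fun s => B (bt s), ?_, ?_, ?_⟩
    · intro s A hA hAn hAne
      obtain ⟨e, he⟩ := (b1 (bt s)).2 A hA hAn hAne
      rcases he with ⟨h3, h4⟩ | ⟨h3, h4⟩
      · exact ⟨e, src e, dst e, h3, (mem_sdiff.mp h4).1, (mem_sdiff.mp h4).2, Or.inl ⟨rfl, rfl⟩⟩
      · exact ⟨e, dst e, src e, h4, (mem_sdiff.mp h3).1, (mem_sdiff.mp h3).2, Or.inr ⟨rfl, rfl⟩⟩
    · intro s t hst
      exact b2 _ _ fun h5 => hst (hinj s t h5)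
    · intro s t hst
      rcases hadj s t hst with h4 | h4
      · obtain ⟨e, he⟩ := b3 _ h4
        rcases he with ⟨h5, h6⟩ | ⟨h5, h6⟩
        · exact ⟨e, src e, dst e, h5, h6, Or.inl ⟨rfl, rfl⟩⟩
        · exact ⟨e, dst e, src e, h6, h5, Or.inr ⟨rfl, rfl⟩⟩
      · obtain ⟨e, he⟩ := b3 _ h4
        rcases he with ⟨h5, h6⟩ | ⟨h5, h6⟩
        · exact ⟨e, dst e, src e, h6, h5, Or.inr ⟨rfl, rfl⟩⟩
        · exact ⟨e, src e, dst e, h5, h6, Or.inl ⟨rfl, rfl⟩⟩
  have h2 : Br src dst ∅ ∅ := by
    intro Y _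
    rw [sdiff_empty]
    exact hB Y
  obtain ⟨f, f1, _, f3⟩ := flow15 hC h1 h2
  exact ⟨f, fun e => f3 e (notMem_empty _) (notMem_empty _), fun x => f1 x⟩

end Pool.Agent.W5h14.Circ
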