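import Pool.Agent.W5h14.Circ.Gap
import Pool.Agent.H135R2.Pin.Paths

/-!
# There are no circuits outside of a longest circuit with at most 15 vertices
-/

set_option autoImplicit false

namespace Pool.Agent.W5h14.Circ

/-- a vertex cut with at most three vertices separates at most one vertex -/
def Con {V : Type} (R : V → V → Prop) : Prop :=
  ∀ Z I : Finset V, Z.card ≤ 3 → (∀ x ∈ I, ∀ y, R x y → y ∈ I ∨ y ∈ Z) →
    ∀ x x2 y y2, x ∈ I → x2 ∈ I → x ≠ x2 → y ∉ I → y ∉ Z → y2 ∉ I → y2 ∉ Z → y ≠ y2 →
      (∃ w, R x w) → (∃ w, R x2 w) → (∃ w, R y w) → (∃ w, R y2 w) → False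

variable {V : Type} {R : V → V → Prop} {L : ℕ} {c : ℕ → V}

theorem trim {A B : V → Prop} (hAB : ∀ x, A x → ¬ B x) : ∀ (n : ℕ) (q : List V), q.length ≤ n →
    q.Nodup → List.IsChain R q → q ≠ [] → (∀ x ∈ q.head?, A x) → (∀ x ∈ q.getLast?, B x) →
    ∃ a s b, A a ∧ B b ∧ (∀ x ∈ s, ¬ A x ∧ ¬ B x) ∧ (a :: (s ++ [b])).Nodup ∧
      List.IsChain R (a :: (s ++ [b])) ∧ ∀ x ∈ a :: (s ++ [b]), x ∈ q
  | 0, q, hn, _, _, hne, _, _ => by
    exact absurd (List.length_eq_zero_iff.1 (Nat.le_zero.1 hn)) hne
  | n + 1, q, hn, hnd, hch, hne, hA, hB => by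
    rcases q with _ | ⟨a, q⟩
    · exact absurd rfl hne
    · have ha : A a := hA a (by simp)
      rcases List.eq_nil_or_concat q with rfl | ⟨s, b, rfl⟩
      · exact absurd (hB a (by simp)) (hAB a ha)
      · rw [List.concat_eq_append] at *
        have hb : B b := hB b (by
          rw [show a :: (s ++ [b]) = (a :: s) ++ [b] by simp, List.getLast?_concat]
          rfl)
        by_cases hs : ∀ x ∈ s, ¬ A x ∧ ¬ B x
        · exact ⟨a, s, b, ha, hb, hs, hnd, hch, fun x hx => hx⟩
        · push Not at hs
          obtain ⟨x, hx, hx2⟩ := hs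
          obtain ⟨s1, s2, rfl⟩ := List.append_of_mem hx
          by_cases hxA : A x
          · have e : a :: (s1 ++ x :: s2 ++ [b]) = (a :: s1) ++ (x :: (s2 ++ [b])) := by simp
            rw [e] at hnd hch
            obtain ⟨a', s', b', h1, h2, h3, h4, h5, h6⟩ := trim hAB n (x :: (s2 ++ [b])) (by
              simp only [List.length_cons, List.length_append, List.length_nil] at hn ⊢
              omega) (List.nodup_append.1 hnd).2.1 (List.isChain_append.1 hch).2.1 (by simp)
              (by simpa using hxA) (by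
                intro y hy
                rw [show x :: (s2 ++ [b]) = (x :: s2) ++ [b] by simp, List.getLast?_concat] at hy
                simp only [Option.mem_def, Option.some.injEq] at hy
                rw [← hy]; exact hb)
            refine ⟨a', s', b', h1, h2, h3, h4, h5, fun y hy => ?_⟩
            rw [e]
            exact List.mem_append_right _ (h6 y hy)
          · have hxB := hx2 hxA
            have e : a :: (s1 ++ x :: s2 ++ [b]) = (a :: (s1 ++ [x])) ++ (s2 ++ [b]) := by simp
            rw [e] at hnd hch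
            obtain ⟨a', s', b', h1, h2, h3, h4, h5, h6⟩ := trim hAB n (a :: (s1 ++ [x])) (by
              simp only [List.length_cons, List.length_append, List.length_nil] at hn ⊢
              omega) (List.nodup_append.1 hnd).1 (List.isChain_append.1 hch).1 (by simp)
              (by simpa using ha) (by
                intro y hy
                rw [show a :: (s1 ++ [x]) = (a :: s1) ++ [x] by simp, List.getLast?_concat] at hy
                simp only [Option.mem_def, Option.some.injEq] at hy
                rw [← hy]; exact hxB)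
            refine ⟨a', s', b', h1, h2, h3, h4, h5, fun y hy => ?_⟩
            rw [e]
            exact List.mem_append_left _ (h6 y hy)

/-- the graph with two new vertices, joined to `A` and to `B` -/
def HG (hR : ∀ x y, R x y → R y x) (hirr : ∀ x, ¬ R x x) (A B : V → Prop) :
    SimpleGraph (V ⊕ Bool) where
  Adj := fun p q => match p, q with
    | Sum.inl x, Sum.inl y => R x y
    | Sum.inl x, Sum.inr true => B x
    | Sum.inr true, Sum.inl x => B x
    | Sum.inl x, Sum.inr false => A x
    | Sum.inr false, Sum.inl x => A x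
    | Sum.inr _, Sum.inr _ => False
  symm := ⟨by
    rintro (x | _ | _) (y | _ | _) h <;> first | exact h | exact hR _ _ h⟩
  loopless := ⟨by
    rintro (x | _ | _) h
    · exact hirr _ h
    · exact h
    · exact h⟩

theorem lift_inl : ∀ l : List (V ⊕ Bool), (∀ x ∈ l, ∃ v, x = Sum.inl v) →
    ∃ q : List V, l = q.map Sum.inl
  | [], _ => ⟨[], rfl⟩
  | x :: l, h => by
    obtain ⟨v, hv⟩ := h x (by simp)
    obtain ⟨q, hq⟩ := lift_inl l fun y hy => h y (by simp [hy])
    exact ⟨v :: q, by rw [hv, hq]; rfl⟩

theorem walk_list (hR : ∀ x y, R x y → R y x) (hirr : ∀ x, ¬ R x x) {A B : V → Prop}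
    (P : (HG hR hirr A B).Walk (Sum.inr false) (Sum.inr true)) (hP : P.IsPath) :
    ∃ q : List V, q ≠ [] ∧ q.Nodup ∧ List.IsChain R q ∧ (∀ x ∈ q.head?, A x) ∧
      (∀ x ∈ q.getLast?, B x) ∧ ∀ x ∈ q, Sum.inl x ∈ P.support := by
  have hnd := hP.support_nodup
  have hch := P.isChain_adj_support
  have hhd : P.support.head? = some (Sum.inr false) := by
    cases P; simp
  have hlt : P.support.getLast? = some (Sum.inr true) := by
    rw [List.getLast?_eq_some_getLast P.support_ne_nil, SimpleGraph.Walk.getLast_support]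
  generalize P.support = l at *
  rcases l with _ | ⟨x, l⟩
  · simp at hhd
  · simp only [List.head?_cons, Option.some.injEq] at hhd
    subst hhd
    rcases List.eq_nil_or_concat l with rfl | ⟨l', y, rfl⟩
    · simp at hlt
    · rw [List.concat_eq_append] at *
      have hy : y = Sum.inr true := by
        rw [show (Sum.inr false : V ⊕ Bool) :: (l' ++ [y]) = (Sum.inr false :: l') ++ [y] by simp,
          List.getLast?_concat] at hlt
        simpa using hlt
      subst hy
      have h1 : ∀ z ∈ l', ∃ v, z = Sum.inl v := by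
        rintro (v | _ | _) hz
        · exact ⟨v, rfl⟩
        · exact absurd (List.mem_append_left _ hz) (List.nodup_cons.1 hnd).1
        · have h2 := (List.nodup_append.1 (List.nodup_cons.1 hnd).2).2.2
          exact absurd rfl (h2 _ hz _ (by simp))
      obtain ⟨q, rfl⟩ := lift_inl l' h1
      have hch1 : List.IsChain (HG hR hirr A B).Adj (q.map Sum.inl) := by
        have h2 : List.IsChain (HG hR hirr A B).Adj (q.map Sum.inl ++ [Sum.inr true]) := by
          have := hch.tail
          simpa using this
        exact (List.isChain_append.1 h2).1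
      refine ⟨q, ?_, ?_, ?_, ?_, ?_, ?_⟩
      · rintro rfl
        simp only [List.map_nil, List.nil_append, List.isChain_cons_cons] at hch
        exact hch.1
      · have h2 := (List.nodup_append.1 (List.nodup_cons.1 hnd).2).1
        exact List.Nodup.of_map _ h2
      · rw [List.isChain_map] at hch1
        exact hch1.imp fun x y hxy => hxy
      · intro x hx
        rcases q with _ | ⟨z, q⟩
        · simp at hx
        · simp only [List.head?_cons, Option.mem_def, Option.some.injEq] at hx
          subst hx
          simp only [List.map_cons, List.cons_append, List.isChain_cons_cons] at hch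
          exact hch.1
      · intro x hx
        have h2 : List.IsChain (HG hR hirr A B).Adj (q.map Sum.inl ++ [Sum.inr true]) := by
          have := hch.tail
          simpa using this
        have h3 := (List.isChain_append.1 h2).2.2 (Sum.inl x) (by
          rw [List.getLast?_map]
          simp only [Option.mem_def] at hx
          rw [hx]; rfl) (Sum.inr true) (by simp)
        exact h3
      · intro x hx
        simp [hx]

theorem head_append {s t : List V} {b : V} (ht : t.head? = some b) (u : List V) :
    (s ++ (t ++ u)).head? = (s ++ [b]).head? := by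
  cases s with
  | nil =>
    cases t with
    | nil => simp at ht
    | cons x t => simpa using ht
  | cons x s => simp

/-- the arcs of a circuit -/
theorem arc_path (hR : ∀ x y, R x y → R y x) {M : ℕ} {c' : ℕ → V} (h : PC R M c') (hM : 5 ≤ M)
    {r r' : ℕ} (hr : r < M) (hr' : r' < M) (hne : r ≠ r') :
    ∃ t : List V, t.head? = some (c' r) ∧ t.getLast? = some (c' r') ∧ t.Nodup ∧
      List.IsChain R t ∧ (∀ x ∈ t, ∃ i, c' i = x) ∧ 3 ≤ t.length := by
  have main : ∀ r r', r < M → r' < M → r < r' → ∃ t : List V, t.head? = some (c' r) ∧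
      t.getLast? = some (c' r') ∧ t.Nodup ∧ List.IsChain R t ∧ (∀ x ∈ t, ∃ i, c' i = x) ∧
      3 ≤ t.length := by
    intro r r' hr hr' hlt
    by_cases h2 : 2 ≤ r' - r
    · refine ⟨arc c' r (r' - r + 1), ?_, ?_, h.arc_nodup _ (by omega), h.arc_chain _ _, ?_, ?_⟩
      · rw [arc_cons]; rfl
      · rw [arc_succ, List.getLast?_concat]
        congr 2; omega
      · intro x hx
        obtain ⟨t, _, ht⟩ := mem_arc.1 hx
        exact ⟨_, ht⟩
      · rw [arc_length]; omega
    · refine ⟨(arc c' r' (M - (r' - r) + 1)).reverse, ?_, ?_,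
        List.nodup_reverse.2 (h.arc_nodup _ (by omega)), ?_, ?_, ?_⟩
      · rw [List.head?_reverse, arc_succ, List.getLast?_concat]
        congr 1
        rw [← h.per r]
        congr 1; omega
      · rw [List.getLast?_reverse, arc_cons]; rfl
      · rw [List.isChain_reverse]
        exact (h.arc_chain _ _).imp fun x y hxy => hR _ _ hxy
      · intro x hx
        obtain ⟨t, _, ht⟩ := mem_arc.1 (List.mem_reverse.1 hx)
        exact ⟨_, ht⟩
      · rw [List.length_reverse, arc_length]; omega
  rcases Nat.lt_or_gt_of_ne hne with h1 | h1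
  · exact main r r' hr hr' h1
  · obtain ⟨t, a1, a2, a3, a4, a5, a6⟩ := main r' r hr' hr h1
    refine ⟨t.reverse, by rw [List.head?_reverse, a2], by rw [List.getLast?_reverse, a1],
      List.nodup_reverse.2 a3, ?_, fun x hx => a5 x (List.mem_reverse.1 hx), by
        rw [List.length_reverse]; exact a6⟩
    rw [List.isChain_reverse]
    exact a4.imp fun x y hxy => hR _ _ hxy

/-- two disjoint paths to the other circuit -/
theorem two_paths (hG : Gg R) (h : PC R L c) (hnl : NL R L) {M : ℕ} {c' : ℕ → V}
    (h' : PC R M c') (hM : 5 ≤ M) (hd : ∀ i j, c i ≠ c' j) {p p' r r' : ℕ} {s s' : List V}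
    (hp : p < L) (hp' : p' < L) (hr : r < M) (hr' : r' < M)
    (hs : ∀ x ∈ s, (∀ i, c i ≠ x) ∧ ∀ i, c' i ≠ x) (hs' : ∀ x ∈ s', (∀ i, c i ≠ x) ∧ ∀ i, c' i ≠ x)
    (hn : (c p :: (s ++ [c' r])).Nodup) (hn' : (c p' :: (s' ++ [c' r'])).Nodup)
    (hc : List.IsChain R (c p :: (s ++ [c' r]))) (hc' : List.IsChain R (c p' :: (s' ++ [c' r'])))
    (hdis : ∀ x ∈ c p :: (s ++ [c' r]), x ∉ c p' :: (s' ++ [c' r'])) :
    p ≠ p' ∧ D L p p' 4 := by
  have hpp : p ≠ p' := by
    rintro rfl
    exact hdis (c p) (by simp) (by simp)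
  refine ⟨hpp, ?_⟩
  have hrr : r ≠ r' := by
    rintro rfl
    exact hdis (c' r) (by simp) (by simp)
  obtain ⟨t, t1, t2, t3, t4, t5, t6⟩ := arc_path hG.symm h' hM hr hr' hrr
  have hsn : s.Nodup := (List.nodup_append.1 (List.nodup_cons.1 hn).2).1
  have hsn' : s'.Nodup := (List.nodup_append.1 (List.nodup_cons.1 hn').2).1
  have hsc : List.IsChain R (s ++ [c' r]) := hc.tail
  have hsc' : List.IsChain R (s' ++ [c' r']) := hc'.tail
  have hq : OP R c (s ++ (t ++ s'.reverse)) := by
    refine ⟨?_, ?_, ?_⟩
    · rw [List.nodup_append]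
      refine ⟨hsn, ?_, ?_⟩
      · rw [List.nodup_append]
        refine ⟨t3, List.nodup_reverse.2 hsn', ?_⟩
        intro x hx y hy hxy
        subst hxy
        obtain ⟨i, hi⟩ := t5 x hx
        exact (hs' x (List.mem_reverse.1 hy)).2 i hi
      · intro x hx y hy hxy
        subst hxy
        rcases List.mem_append.1 hy with hy | hy
        · obtain ⟨i, hi⟩ := t5 x hy
          exact (hs x hx).2 i hi
        · exact hdis x (by simp [hx]) (by simp [List.mem_reverse.1 hy])
    · rw [List.isChain_append]
      refine ⟨(List.isChain_append.1 hsc).1, ?_, ?_⟩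
      · rw [List.isChain_append]
        refine ⟨t4, ?_, ?_⟩
        · rw [List.isChain_reverse]
          exact (List.isChain_append.1 hsc').1.imp fun x y hxy => hG.symm _ _ hxy
        · intro x hx y hy
          rw [t2] at hx
          simp only [Option.mem_def, Option.some.injEq] at hx
          subst hx
          rw [List.head?_reverse] at hy
          exact hG.symm _ _ ((List.isChain_append.1 hsc').2.2 y hy _ (by simp))
      · intro x hx y hy
        have hy' : y = c' r := by
          have h5 := head_append (s := []) t1 s'.reverse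
          simp only [List.nil_append, List.head?_cons] at h5
          rw [h5] at hy
          simpa using hy.symm
        rw [hy']
        exact (List.isChain_append.1 hsc).2.2 x hx _ (by simp)
    · intro x hx i
      rcases List.mem_append.1 hx with hx | hx
      · exact (hs x hx).1 i
      · rcases List.mem_append.1 hx with hx | hx
        · obtain ⟨j, rfl⟩ := t5 x hx
          exact hd i j
        · exact (hs' x (List.mem_reverse.1 hx)).1 i
  have hne : s ++ (t ++ s'.reverse) ≠ [] := by
    intro h1
    have h2 := congrArg List.length h1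
    simp only [List.length_append, List.length_nil] at h2
    omega
  have hg := gap hG h hnl hq hne hp hp' ?_ ?_
  · refine ⟨fun h1 => ?_, fun h1 => ?_⟩
    · have := hg.1 h1
      simp only [List.length_append] at this
      omega
    · have := hg.2 h1
      simp only [List.length_append] at this
      omega
  · intro x hx
    rw [head_append t1] at hx
    cases s with
    | nil =>
      simp only [List.nil_append, List.head?_cons, Option.mem_def, Option.some.injEq] at hx
      subst hx
      simp only [List.nil_append, List.isChain_cons_cons] at hc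
      exact hG.symm _ _ hc.1
    | cons y s =>
      simp only [List.cons_append, List.head?_cons, Option.mem_def, Option.some.injEq] at hx
      subst hx
      simp only [List.cons_append, List.isChain_cons_cons] at hc
      exact hG.symm _ _ hc.1
  · intro x hx
    rw [List.getLast?_eq_head?_reverse] at hx
    have e : (s ++ (t ++ s'.reverse)).reverse = s' ++ (t.reverse ++ s.reverse) := by simp
    rw [e, head_append (b := c' r') (by rw [List.head?_reverse, t2])] at hx
    cases s' with
    | nil =>
      simp only [List.nil_append, List.head?_cons, Option.mem_def, Option.some.injEq] at hx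
      subst hx
      simp only [List.nil_append, List.isChain_cons_cons] at hc'
      exact hG.symm _ _ hc'.1
    | cons y s' =>
      simp only [List.cons_append, List.head?_cons, Option.mem_def, Option.some.injEq] at hx
      subst hx
      simp only [List.cons_append, List.isChain_cons_cons] at hc'
      exact hG.symm _ _ hc'.1

/-- two vertices of the circuit outside of a small set -/
theorem PC.two_out [DecidableEq V] (h : PC R L c) (hL : 5 ≤ L) (Z : Finset V) (hZ : Z.card ≤ 3) :
    ∃ i j, c i ∉ Z ∧ c j ∉ Z ∧ c i ≠ c j := by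
  have h1 : ((Finset.range L).image c).card = L := by
    rw [Finset.card_image_of_injOn, Finset.card_range]
    intro i hi j hj hij
    exact h.inj i j (by simpa using hi) (by simpa using hj) hij
  have h2 : 1 < (((Finset.range L).image c) \ Z).card := by
    have := Finset.le_card_sdiff Z ((Finset.range L).image c)
    omega
  obtain ⟨x, hx, y, hy, hxy⟩ := Finset.one_lt_card.1 h2
  rw [Finset.mem_sdiff, Finset.mem_image] at hx hy
  obtain ⟨⟨i, _, rfl⟩, hx⟩ := hx
  obtain ⟨⟨j, _, rfl⟩, hy⟩ := hy
  exact ⟨i, j, hx, hy, hxy⟩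

/-- **No circuits outside.** -/
theorem nc_of [Finite V] (hG : Gg R) (h : PC R L c) (hnl : NL R L) (hL5 : 5 ≤ L) (hL : L ≤ 15)
    (hcon : Con R) : NC R c := by
  classical
  have := Fintype.ofFinite V
  intro a m hq hcl hlen
  obtain ⟨c', h', _, hc2, _⟩ := PC.ofList hq.nd hcl
  generalize m.length + 1 = M at h' hlen
  have hd : ∀ i j, c i ≠ c' j := fun i j => hq.out _ (hc2 j) i
  obtain ⟨P, hP, hPd⟩ := H135R2.Menger.menger_paths
    (HG hG.symm hG.irr (fun x => ∃ i, c i = x) (fun x => ∃ i, c' i = x))
    (x := Sum.inr false) (y := Sum.inr true) (by simp) (fun h => h) 4 (by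
      intro P S hxP hyP _ hyS hout
      by_contra hlt
      set Z : Finset V := Finset.univ.filter (fun v => Sum.inl v ∈ S) with hZdef
      have hZ : Z.card ≤ 3 := by
        have h1 : Z.card ≤ S.card := by
          refine Finset.card_le_card_of_injOn Sum.inl ?_ ?_
          · intro v hv
            have : v ∈ Z := hv
            rw [hZdef, Finset.mem_filter] at this
            exact this.2
          · intro v _ w _ hvw
            exact Sum.inl_injective hvw
        omega
      have hmZ : ∀ v, v ∈ Z ↔ Sum.inl v ∈ S := fun v => by simp [hZdef]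
      set I : Finset V := Finset.univ.filter (fun v => Sum.inl v ∈ P) with hIdef
      have hmI : ∀ v, v ∈ I ↔ Sum.inl v ∈ P := fun v => by simp [hIdef]
      have hCI : ∀ i, c i ∈ I ∨ c i ∈ Z := by
        intro i
        by_cases h1 : (Sum.inl (c i) : V ⊕ Bool) ∈ P
        · exact Or.inl ((hmI _).2 h1)
        · exact Or.inr ((hmZ _).2 (hout _ _ hxP h1 (show ∃ j, c j = c i from ⟨i, rfl⟩)))
      have hCO : ∀ i, c' i ∉ I := by
        intro i h1
        exact hyS (hout (Sum.inl (c' i)) _ ((hmI _).1 h1) hyP
          (show ∃ j, c' j = c' i from ⟨i, rfl⟩))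
      obtain ⟨i1, i2, a1, a2, a3⟩ := h.two_out hL5 Z hZ
      obtain ⟨j1, j2, b1, b2, b3⟩ := h'.two_out hlen Z hZ
      refine hcon Z I hZ ?_ (c i1) (c i2) (c' j1) (c' j2) ((hCI _).resolve_right a1)
        ((hCI _).resolve_right a2) a3 (hCO _) b1 (hCO _) b2 b3 ⟨_, h.adj _⟩ ⟨_, h.adj _⟩
        ⟨_, h'.adj _⟩ ⟨_, h'.adj _⟩
      intro x hx y hxy
      by_cases h1 : (Sum.inl y : V ⊕ Bool) ∈ P
      · exact Or.inl ((hmI _).2 h1)
      · exact Or.inr ((hmZ _).2 (hout (Sum.inl x) _ ((hmI _).1 hx) h1 hxy)))
  have key : ∀ k : Fin 4, ∃ (p r : ℕ) (s : List V), p < L ∧ r < M ∧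
      (∀ x ∈ s, (∀ i, c i ≠ x) ∧ ∀ i, c' i ≠ x) ∧ (c p :: (s ++ [c' r])).Nodup ∧
      List.IsChain R (c p :: (s ++ [c' r])) ∧
      ∀ x ∈ c p :: (s ++ [c' r]), Sum.inl x ∈ (P k).support := by
    intro k
    obtain ⟨q, q1, q2, q3, q4, q5, q6⟩ := walk_list hG.symm hG.irr (P k) (hP k)
    obtain ⟨a, s, b, ⟨i, rfl⟩, ⟨j, rfl⟩, s3, s4, s5, s6⟩ := trim (R := R)
      (A := fun x => ∃ i, c i = x) (B := fun x => ∃ i, c' i = x) (by
        rintro x ⟨i, hi⟩ ⟨j, hj⟩
        exact hd i j (hi.trans hj.symm)) _ q le_rfl q2 q3 q1 q4 q5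
    rw [← h.mod i, ← h'.mod j] at s4 s5 s6
    refine ⟨i % L, j % M, s, Nat.mod_lt _ h.pos, Nat.mod_lt _ h'.pos, ?_, s4, s5,
      fun x hx => q6 x (s6 x hx)⟩
    intro x hx
    obtain ⟨e1, e2⟩ := s3 x hx
    exact ⟨fun i hi => e1 ⟨i, hi⟩, fun i hi => e2 ⟨i, hi⟩⟩
  choose p r s k1 k2 k3 k4 k5 k6 using key
  refine ar5 hL p k1 fun i j hij => ?_
  refine two_paths hG h hnl h' hlen hd (k1 i) (k1 j) (k2 i) (k2 j) (k3 i) (k3 j) (k4 i) (k4 j)
    (k5 i) (k5 j) ?_
  intro x hx hx'
  rcases hPd i j hij _ (k6 i x hx) (k6 j x hx') with h1 | h1 <;> simp at h1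

end Pool.Agent.W5h14.Circ
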