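import Pool.Agent.W5h14.Circ.Cls
import Pool.Agent.W5h14.Circ.Main
import Pool.Agent.TH497.T4.K3b
import Pool.Agent.TH169.P5.GIRTH
import Pool.Agent.TH362.TF.Main
import Pool.Agent.TH362.TF.Contr
import Pool.Agent.TH676.Blk.Main

/-!
# Minimal graphs without flows and without long circuits
-/

set_option autoImplicit false
set_option linter.unusedSectionVars false

namespace Pool.Agent.W5h14.Circ

open Finset Pool.Agent.TH462.T4 Pool.Agent.TH676.T4

variable {V E : Type} [Fintype V] [DecidableEq V] [Fintype E] [DecidableEq E]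

theorem Ad.nis {src dst : E → V} {x y : V} (h : Ad src dst x y) : Nis src dst x := by
  obtain ⟨hne, e, h1 | h1⟩ := h
  · exact ⟨e, by rw [h1.1, h1.2]; exact hne, Or.inl h1.1⟩
  · exact ⟨e, by rw [h1.1, h1.2]; exact hne.symm, Or.inr h1.2⟩

theorem Nis.ad {src dst : E → V} {x : V} (h : Nis src dst x) : ∃ y, Ad src dst x y := by
  obtain ⟨e, hne, h1 | h1⟩ := h
  · exact ⟨dst e, by rw [← h1]; exact hne, e, Or.inl ⟨h1, rfl⟩⟩
  · exact ⟨src e, by rw [← h1]; exact hne.symm, e, Or.inr ⟨rfl, h1⟩⟩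

/-- the degrees are at least three -/
theorem ad_deg {src dst : E → V} (h : MinCx src dst) {v w : V} (hvw : Ad src dst v w) (x y : V) :
    ∃ z, Ad src dst v z ∧ z ≠ x ∧ z ≠ y := by
  have h3 : 3 ≤ (crs src dst {v}).card := cut3 h (x := v) (y := w) (mem_singleton_self _)
    (by simpa using hvw.1.symm) hvw.nis hvw.symm.nis
  -- the other end
  let o : E → V := fun e => if src e = v then dst e else src e
  have ho : ∀ e ∈ crs src dst {v}, JV src dst e v (o e) ∧ v ≠ o e := by
    intro e he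
    rw [mem_crs, mem_singleton, mem_singleton] at he
    by_cases h1 : src e = v
    · have h2 : dst e ≠ v := fun h2 => he ⟨fun _ => h2, fun _ => h1⟩
      simp only [o, h1, if_true]
      exact ⟨Or.inl ⟨h1, rfl⟩, h2.symm⟩
    · have h2 : dst e = v := by
        by_contra h2
        exact he ⟨fun h3 => absurd h3 h1, fun h3 => absurd h3 h2⟩
      simp only [o, h1, if_false]
      exact ⟨Or.inr ⟨rfl, h2⟩, fun h3 => h1 h3.symm⟩
  have hinj : Set.InjOn o (crs src dst {v} : Finset E) := by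
    intro e he e' he' hee
    have h1 := ho e he
    have h2 := ho e' he'
    rw [← hee] at h2
    exact TH169.P5.smp V E src dst h e e' v (o e) h1.2 h1.1 h2.1
  have hcard : ((crs src dst {v}).image o).card = (crs src dst {v}).card :=
    card_image_of_injOn hinj
  have h4 : ({x, y} : Finset V).card < ((crs src dst {v}).image o).card := by
    rw [hcard]
    exact lt_of_le_of_lt card_le_two (by omega)
  obtain ⟨z, hz, hz2⟩ := exists_mem_notMem_of_card_lt_card h4
  obtain ⟨e, he, rfl⟩ := mem_image.1 hz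
  simp only [mem_insert, mem_singleton, not_or] at hz2
  exact ⟨o e, ⟨(ho e he).2, e, (ho e he).1⟩, hz2.1, hz2.2⟩

theorem gg_of {src dst : E → V} (h : MinCx src dst) : Gg (Ad src dst) where
  symm := fun _ _ => Ad.symm
  tri := fun a b c h1 h2 h3 => TH169.P5.tri V E src dst h a b c h1.1 h3.1.symm h2.1 h1.2 h2.2 h3.2
  four := fun a b c d hac hbd h1 h2 h3 h4 => TH169.P5.quad V E src dst h a b c d h1.1 hac
    h4.1.symm h2.1 hbd h3.1 h1.2 h2.2 h3.2 h4.2
  deg := fun _ _ hvw => ad_deg h hvw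

theorem con_of {src dst : E → V} (h : MinCx src dst) : Con (Ad src dst) := by
  intro Z I hZ hcl x x2 y y2 hx hx2 hxx hyI hyZ hy2I hy2Z hyy nx nx2 ny ny2
  obtain ⟨_, nx⟩ := nx
  obtain ⟨_, nx2⟩ := nx2
  obtain ⟨_, ny⟩ := ny
  obtain ⟨_, ny2⟩ := ny2
  refine TH497.T4.sep3 h (Z := Z) (I := I) ?_ hZ hx nx.nis hx2 nx2.nis hxx hyI hyZ ny.nis hy2I hy2Z
    ny2.nis hyy
  intro e he
  by_cases hl : src e = dst e
  · have : src e ∈ I := by
      rcases he with he | he
      · exact he
      · rw [hl]; exact he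
    exact ⟨mem_union_left _ this, mem_union_left _ (hl ▸ this)⟩
  · rcases he with he | he
    · refine ⟨mem_union_left _ he, mem_union.2 (hcl _ he _ ⟨hl, e, Or.inl ⟨rfl, rfl⟩⟩)⟩
    · refine ⟨mem_union.2 (hcl _ he _ ⟨Ne.symm hl, e, Or.inr ⟨rfl, rfl⟩⟩), mem_union_left _ he⟩

/-- the Petersen graph by pairs -/
theorem fl_pet : ∀ x ∈ petEdges, Disjoint (TH676.Blk.fl x.1).1 (TH676.Blk.fl x.2).1 := by decide

theorem linked_cut {src dst : E → V} {B : Set V} {A : Finset V} {a b : V}
    (h : TH362.Multi.Linked src dst {e | src e ∈ B ∧ dst e ∈ B} a b) (ha : a ∈ A) (hb : b ∉ A) :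
    ∃ e, src e ∈ B ∧ dst e ∈ B ∧ ((src e ∈ A ∧ dst e ∉ A) ∨ (src e ∉ A ∧ dst e ∈ A)) := by
  unfold TH362.Multi.Linked at h
  induction h with
  | refl => exact absurd ha hb
  | @tail x y _ hxy ih =>
    by_cases hx : x ∈ A
    · obtain ⟨e, he, h1 | h1⟩ := hxy
      · exact ⟨e, he.1, he.2, Or.inl ⟨by rw [h1.1]; exact hx, by rw [h1.2]; exact hb⟩⟩
      · exact ⟨e, he.1, he.2, Or.inr ⟨by rw [h1.1]; exact hb, by rw [h1.2]; exact hx⟩⟩
    · exact ih hx

theorem petMinor_of {src dst : E → V} (h : TH362.Multi.ContractsToPetersen src dst) :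
    PetMinor src dst := by
  classical
  obtain ⟨B, b1, b2, b3, _⟩ := h
  refine ⟨fun i => univ.filter (fun v => v ∈ B (TH676.Blk.fl i)), fun i => ⟨?_, ?_⟩, ?_, ?_⟩
  · obtain ⟨v, hv⟩ := (b1 (TH676.Blk.fl i)).1
    exact ⟨v, by simpa using hv⟩
  · intro A hA hA0 hAB
    obtain ⟨a, ha⟩ := hA0
    obtain ⟨b, hb, hbA⟩ : ∃ b ∈ univ.filter (fun v => v ∈ B (TH676.Blk.fl i)), b ∉ A := by
      by_contra hcon
      push Not at hcon
      exact hAB (subset_antisymm hA hcon)
    have ha' := hA ha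
    rw [mem_filter] at ha' hb
    obtain ⟨e, e1, e2, e3⟩ := linked_cut ((b1 (TH676.Blk.fl i)).2 a ha'.2 b hb.2) ha hbA
    refine ⟨e, ?_⟩
    unfold JoinsSet
    simp only [mem_sdiff, mem_filter, mem_univ, true_and]
    rcases e3 with e3 | e3
    · exact Or.inl ⟨e3.1, e2, e3.2⟩
    · exact Or.inr ⟨⟨e1, e3.1⟩, e3.2⟩
  · intro i j hij
    rw [disjoint_left]
    intro v hv hv'
    rw [mem_filter] at hv hv'
    exact Set.disjoint_left.1 (b2 _ _ (fun h => hij (TH676.Blk.fl_inj _ _ h))) hv.2 hv'.2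
  · intro x hx
    obtain ⟨e, he, _⟩ := b3 _ _ (fl_pet x hx)
    refine ⟨e, ?_⟩
    unfold JoinsSet
    simp only [mem_filter, mem_univ, true_and]
    exact he

theorem n1_of_br {src dst : E → V} (h : Br src dst ∅ ∅) : TH362.TF.N1 src dst univ := by
  intro x hx
  refine h (univ.filter (fun v => x v = true)) (disjoint_empty_right _) ?_
  rw [sdiff_empty, ← hx]
  congr 1
  ext e
  simp only [mem_crs, TH362.TF.cut, mem_filter, mem_univ, true_and]
  cases x (src e) <;> cases x (dst e) <;> simp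

/-- at least eighteen vertices -/
theorem many_of {src dst : E → V} (h : MinCx src dst) (hP : ¬ PetMinor src dst) (S : Finset V)
    (hS : S.card < 18) : ∃ v, v ∉ S ∧ ∃ w, Ad src dst v w := by
  have h1 := n1_of_br h.br
  have h18 : 18 ≤ (TH362.TF.odd src dst univ).card := by
    have h2 : ¬ (TH362.TF.odd src dst univ).card ≤ 16 := by
      intro hc
      rcases TH362.TF.main16 src dst univ h1 hc with ⟨φ, f1, f2⟩ | h3
      · exact h.nf ⟨φ, f2, fun e he => absurd he (notMem_empty _), fun e _ _ => f1 e (mem_univ _)⟩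
      · exact hP (petMinor_of (TH362.TF.contracts src dst h1 h3))
    have h2' := TH362.TF.parity src dst univ (fun _ => true)
    have h3 : TH362.TF.cut src dst univ (fun _ => true) = ∅ := by
      unfold TH362.TF.cut
      rw [Finset.filter_eq_empty_iff]
      intro x _ hx
      exact hx rfl
    rw [h3, card_empty] at h2'
    have h4 : (TH362.TF.odd src dst univ).filter (fun _ => (true : Bool) = true) =
        TH362.TF.odd src dst univ := by
      rw [Finset.filter_eq_self]
      intro x _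
      rfl
    rw [h4] at h2'
    omega
  obtain ⟨v, hv, hvS⟩ := exists_mem_notMem_of_card_lt_card (lt_of_lt_of_le hS h18)
  refine ⟨v, hvS, ?_⟩
  rw [TH362.TF.odd_iff_cut] at hv
  obtain ⟨e, he⟩ : (TH362.TF.cut src dst univ (fun u => decide (u = v))).Nonempty := by
    rw [← card_pos]; omega
  simp only [TH362.TF.cut, mem_filter, mem_univ, true_and, ne_eq, decide_eq_decide] at he
  by_cases h5 : src e = v
  · have h6 : dst e ≠ v := fun h6 => he ⟨fun _ => h6, fun _ => h5⟩
    exact ⟨dst e, h6.symm, e, Or.inl ⟨h5, rfl⟩⟩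
  · have h6 : dst e = v := by
      by_contra h6
      exact he ⟨fun h7 => absurd h7 h5, fun h7 => absurd h7 h6⟩
    exact ⟨src e, fun h7 => h5 h7.symm, e, Or.inr ⟨rfl, h6⟩⟩

/-- **Flows on graphs without long circuits.** -/
theorem flow15 {src dst : E → V} (hC : Cl 15 src dst) (hP : ¬ PetMinor src dst)
    (hB : Br src dst ∅ ∅) : FlowOn src dst ∅ ∅ := by
  by_contra hF
  obtain ⟨s, d, ⟨h1, h2⟩, h3⟩ := exists_minCx (MC.and (mc_Cl 15 (by omega)) mc_noPet) src dst
    ⟨hC, hP⟩ hB hF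
  exact main_abs (gg_of h3) (con_of h3) h1 (fun S hS => many_of h3 h2 S hS)

end Pool.Agent.W5h14.Circ
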