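import Pool.Agent.W5h14.Circ.Gap

/-!
# There are no paths with three vertices outside of a longest circuit with at most 15 vertices
-/

set_option autoImplicit false

namespace Pool.Agent.W5h14.Circ

variable {V : Type} {R : V → V → Prop} {L : ℕ} {c : ℕ → V}

theorem D.mono {L i j k k' : ℕ} (h : D L i j k) (hk : k' ≤ k) : D L i j k' :=
  ⟨fun h1 => by have := h.1 h1; omega, fun h1 => by have := h.2 h1; omega⟩

theorem exists_max [Finite V] {q0 : List V} (h0 : OP R c q0) :
    ∃ q, OP R c q ∧ q0.length ≤ q.length ∧ ∀ q', OP R c q' → q'.length ≤ q.length := by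
  classical
  have := Fintype.ofFinite V
  have hb : ∀ q, OP R c q → q.length ≤ Fintype.card V := fun q hq => hq.nd.length_le_card
  let P : ℕ → Prop := fun n => ∃ q, OP R c q ∧ q.length = n
  have h1 : P (Nat.findGreatest P (Fintype.card V)) :=
    Nat.findGreatest_spec (P := P) (hb _ h0) ⟨q0, h0, rfl⟩
  obtain ⟨q, hq, hq2⟩ := h1
  refine ⟨q, hq, ?_, fun q' hq' => ?_⟩
  · rw [hq2]
    exact Nat.le_findGreatest (hb _ h0) ⟨q0, h0, rfl⟩
  · rw [hq2]
    exact Nat.le_findGreatest (hb _ hq') ⟨q', hq', rfl⟩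

theorem OP.two {a b : V} (hab : a ≠ b) (h : R a b) (ha : ∀ i, c i ≠ a) (hb : ∀ i, c i ≠ b) :
    OP R c [a, b] := by
  refine ⟨?_, ?_, ?_⟩
  · simp [hab]
  · simp [h]
  · intro x hx
    simp only [List.mem_cons, List.not_mem_nil, or_false] at hx
    rcases hx with rfl | rfl <;> assumption

theorem OP.one {a : V} (ha : ∀ i, c i ≠ a) : OP R c [a] := by
  refine ⟨by simp, by simp, ?_⟩
  intro x hx
  simp only [List.mem_cons, List.not_mem_nil, or_false] at hx
  rw [hx]; exact ha

theorem OP.three {a b d : V} (hab : a ≠ b) (had : a ≠ d) (hbd : b ≠ d) (h : R a b) (h' : R b d)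
    (ha : ∀ i, c i ≠ a) (hb : ∀ i, c i ≠ b) (hd : ∀ i, c i ≠ d) : OP R c [a, b, d] := by
  refine ⟨?_, ?_, ?_⟩
  · simp [hab, had, hbd]
  · simp [h, h']
  · intro x hx
    simp only [List.mem_cons, List.not_mem_nil, or_false] at hx
    rcases hx with rfl | rfl | rfl <;> assumption

/-- **No three vertices outside form a path.** -/
theorem p3 [Finite V] (hG : Gg R) (h : PC R L c) (hnl : NL R L) (hnc : NC R c) (hL : L ≤ 15)
    {x y z : V} (hx : ∀ i, c i ≠ x) (hy : ∀ i, c i ≠ y) (hz : ∀ i, c i ≠ z) (hxy : R x y)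
    (hyz : R y z) : x = z := by
  by_contra hxz
  have ne : ∀ {a b : V}, R a b → a ≠ b := by
    rintro a b hab rfl
    exact hG.irr _ hab
  obtain ⟨q, hq, hlen, hmax⟩ := exists_max (OP.three (ne hxy) hxz (ne hyz) hxy hyz hx hy hz)
  simp only [List.length_cons, List.length_nil] at hlen
  -- triangles and circuits of length four
  have htri : ∀ {a b : V} {i : ℕ}, R a b → R a (c i) → R b (c i) → False := fun h1 h2 h3 =>
    hG.tri _ _ _ h1 h3 (hG.symm _ _ h2)
  have hfour : ∀ {a b d : V} {i : ℕ}, a ≠ d → (∀ i, c i ≠ b) → R a b → R b d → R a (c i) →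
      R d (c i) → False := fun h1 h2 h3 h4 h5 h6 =>
    hG.four _ _ _ _ h1 (h2 _).symm h3 h4 h6 (hG.symm _ _ h5)
  obtain ⟨x0, x1, t, rfl⟩ : ∃ x0 x1 t, q = x0 :: x1 :: t := by
    rcases q with _ | ⟨a, _ | ⟨b, t⟩⟩
    · simp at hlen
    · simp at hlen
    · exact ⟨a, b, t, rfl⟩
  obtain ⟨i1, i2, hi, hi2, a1, a2⟩ := end_two hG h hnc hq hmax
  have hq' := hq.reverse hG.symm
  obtain ⟨y0, y1, t', hr⟩ : ∃ y0 y1 t', (x0 :: x1 :: t).reverse = y0 :: y1 :: t' := by
    have hl : (x0 :: x1 :: t).reverse.length = (x0 :: x1 :: t).length := List.length_reverse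
    rcases hrr : (x0 :: x1 :: t).reverse with _ | ⟨a, _ | ⟨b, t'⟩⟩
    · rw [hrr] at hl; simp at hl
    · rw [hrr] at hl; simp at hl
    · exact ⟨a, b, t', rfl⟩
  rw [hr] at hq'
  have hl : (y0 :: y1 :: t').length = (x0 :: x1 :: t).length := by
    rw [← hr]; exact List.length_reverse
  obtain ⟨j1, j2, hj, hj2, b1, b2⟩ := end_two hG h hnc hq' (fun q hq => by rw [hl]; exact hmax q hq)
  have hlast : (x0 :: x1 :: t).getLast? = some y0 := by
    rw [List.getLast?_eq_head?_reverse, hr]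
    rfl
  have hx0y0 : x0 ≠ y0 := by
    rintro rfl
    have h1 : x0 ∈ x1 :: t := by
      rw [List.getLast?_cons_cons] at hlast
      exact List.mem_of_getLast? hlast
    exact (List.nodup_cons.1 hq.nd).1 h1
  have hD : ∀ {i j : ℕ}, i < L → j < L → R x0 (c i) → R y0 (c j) →
      D L i j ((x0 :: x1 :: t).length + 1) := by
    intro i j hi hj h1 h2
    refine gap hG h hnl hq (by simp) hi hj ?_ ?_
    · intro w hw
      simp only [List.head?_cons, Option.mem_def, Option.some.injEq] at hw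
      subst hw; exact h1
    · intro w hw
      rw [hlast] at hw
      simp only [Option.mem_def, Option.some.injEq] at hw
      subst hw; exact h2
  have hi1 : i1 < L := by omega
  have hj1 : j1 < L := by omega
  have hne : ¬ (i1 = j1 ∧ i2 = j2) := by
    rintro ⟨rfl, rfl⟩
    refine hG.four x0 (c i1) y0 (c i2) hx0y0 ?_ a1 (hG.symm _ _ b1) b2 (hG.symm _ _ a2)
    intro h1
    have := h.inj _ _ hi1 hi2 h1
    omega
  have hout : ∀ w ∈ x0 :: x1 :: t, ∀ i, c i ≠ w := hq.out
  have A := near hG h (hout x0 (by simp)) hi1 hi2 a1 a2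
  have B := near hG h (hq'.out y0 (by simp)) hj1 hj2 b1 b2
  have C11 := hD hi1 hj1 a1 b1
  have C12 := hD hi1 hj2 a1 b2
  have C21 := hD hi2 hj1 a2 b1
  have C22 := hD hi2 hj2 a2 b2
  -- a short form of the gap lemma
  have gp2 : ∀ {a b : V} {i j : ℕ}, R a b → (∀ i, c i ≠ a) → (∀ i, c i ≠ b) → i < L → j < L →
      R a (c i) → R b (c j) → D L i j 3 := by
    intro a b i j hab ha hb hi hj h1 h2
    refine gap hG h hnl (OP.two (ne hab) hab ha hb) (by simp) hi hj ?_ ?_
    · simpa using h1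
    · simpa using h2
  have gp3 : ∀ {a b d : V} {i j : ℕ}, R a b → R b d → a ≠ d → (∀ i, c i ≠ a) → (∀ i, c i ≠ b) →
      (∀ i, c i ≠ d) → i < L → j < L → R a (c i) → R d (c j) → D L i j 4 := by
    intro a b d i j hab hbd had ha hb hd hi hj h1 h2
    refine gap hG h hnl (OP.three (ne hab) had (ne hbd) hab hbd ha hb hd) (by simp) hi hj ?_ ?_
    · simpa using h1
    · simpa using h2
  rcases ar1 hL (by simpa using hlen) hi hj hi2 hj2 A B C11 C12 C21 C22 hne with h3 | ⟨h4, hL15, hs⟩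
  · -- three vertices
    obtain ⟨x2, rfl⟩ : ∃ x2, t = [x2] := by
      rcases t with _ | ⟨a, _ | ⟨b, t⟩⟩
      · simp at h3
      · exact ⟨a, rfl⟩
      · simp at h3
    have hy0 : y0 = x2 := by
      simp only [List.getLast?_cons_cons, List.getLast?_singleton, Option.some.injEq] at hlast
      exact hlast.symm
    subst hy0
    have hch := hq.ch
    simp only [List.isChain_cons_cons, List.isChain_singleton, and_true] at hch
    obtain ⟨r1, r2⟩ := hch
    have o0 := hout x0 (by simp)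
    have o1 := hout x1 (by simp)
    have o2 := hout y0 (by simp)
    obtain ⟨w, w1, w2, w3⟩ := hG.deg x1 y0 r2 x0 y0
    have fin : ∀ k, k < L → (∀ i, i < L → R x0 (c i) → k ≠ i ∧ D L k i 3) →
        (∀ j, j < L → R y0 (c j) → k ≠ j ∧ D L k j 3) → False := by
      intro k hk e1 e2
      refine ar2 hL hi hj A B C11 C12 C21 C22 ⟨?_, ?_, ?_, ?_⟩ (e1 _ hi1 a1).2 (e1 _ hi2 a2).2
        (e2 _ hj1 b1).2 (e2 _ hj2 b2).2 (e1 _ hi1 a1).1 (e1 _ hi2 a2).1 (e2 _ hj1 b1).1
        (e2 _ hj2 b2).1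
      · rintro rfl
        exact hfour hx0y0 o1 r1 r2 a1 b1
      · rintro rfl
        exact hfour hx0y0 o1 r1 r2 a1 b2
      · rintro rfl
        exact hfour hx0y0 o1 r1 r2 a2 b1
      · rintro rfl
        exact hfour hx0y0 o1 r1 r2 a2 b2
    by_cases hw : ∃ i, c i = w
    · obtain ⟨k, hk⟩ := hw
      rw [← h.mod k] at hk
      have hkL := Nat.mod_lt k h.pos
      generalize k % L = k at hk hkL
      subst hk
      refine fin k hkL (fun i hi h5 => ⟨?_, gp2 (hG.symm _ _ r1) o1 o0 hkL hi w1 h5⟩)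
        (fun j hj h5 => ⟨?_, gp2 r2 o1 o2 hkL hj w1 h5⟩)
      · rintro rfl
        exact htri r1 h5 w1
      · rintro rfl
        exact htri r2 w1 h5
    · push Not at hw
      have hw0 : w ≠ x0 := w2
      have hOP : OP R c [w, x1, x0] := OP.three (ne (hG.symm _ _ w1)) hw0 (ne (hG.symm _ _ r1))
        (hG.symm _ _ w1) (hG.symm _ _ r1) hw o1 o0
      obtain ⟨k1, k2, hk, hk2, d1, d2⟩ := end_two hG h hnc hOP hmax
      refine fin k1 (by omega) (fun i hi h5 => ⟨?_, (gp3 (hG.symm _ _ w1) (hG.symm _ _ r1) hw0 hw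
        o1 o0 (by omega) hi d1 h5).mono (by omega)⟩) (fun j hj h5 => ⟨?_, (gp3 (hG.symm _ _ w1)
        r2 w3 hw o1 o2 (by omega) hj d1 h5).mono (by omega)⟩)
      · rintro rfl
        exact hfour hw0 o1 (hG.symm _ _ w1) (hG.symm _ _ r1) d1 h5
      · rintro rfl
        exact hfour w3 o1 (hG.symm _ _ w1) r2 d1 h5
  · -- four vertices
    obtain ⟨x2, x3, rfl⟩ : ∃ x2 x3, t = [x2, x3] := by
      rcases t with _ | ⟨a, _ | ⟨b, _ | ⟨d, t⟩⟩⟩
      · simp at h4
      · simp at h4
      · exact ⟨a, b, rfl⟩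
      · simp at h4
    have hy0 : y0 = x3 := by
      simp only [List.getLast?_cons_cons, List.getLast?_singleton, Option.some.injEq] at hlast
      exact hlast.symm
    subst hy0
    have hch := hq.ch
    simp only [List.isChain_cons_cons, List.isChain_singleton, and_true] at hch
    obtain ⟨r1, r2, r3⟩ := hch
    have o0 := hout x0 (by simp)
    have o1 := hout x1 (by simp)
    have o2 := hout x2 (by simp)
    have o3 := hout y0 (by simp)
    have hnd := hq.nd
    simp only [List.nodup_cons, List.mem_cons, List.not_mem_nil, or_false, not_or,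
      not_false_eq_true, List.nodup_nil, and_true] at hnd
    obtain ⟨⟨n01, n02, n03⟩, ⟨n12, n13⟩, n23⟩ := hnd
    simp only [List.length_cons, List.length_nil] at C11 C12 C21 C22
    obtain ⟨w, w1, w2, w3⟩ := hG.deg x1 x2 r2 x0 x2
    have fin : ∀ k, k < L → (∀ i, i < L → R x0 (c i) → k ≠ i ∧ D L k i 3) →
        (∀ j, j < L → R y0 (c j) → D L k j 4) → k = j1 ∨ k = j2 := by
      intro k hk e1 e2
      exact ar4 hL hi hj hi2 hj2 C11 C12 C21 C22 hne hs (e1 _ hi1 a1).2 (e1 _ hi2 a2).2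
        (e2 _ hj1 b1) (e2 _ hj2 b2) (e1 _ hi1 a1).1 (e1 _ hi2 a2).1
    by_cases hw : ∃ i, c i = w
    · obtain ⟨k, hk⟩ := hw
      rw [← h.mod k] at hk
      have hkL := Nat.mod_lt k h.pos
      generalize k % L = k at hk hkL
      subst hk
      rcases fin k hkL (fun i hi h5 => ⟨by rintro rfl; exact htri r1 h5 w1,
        gp2 (hG.symm _ _ r1) o1 o0 hkL hi w1 h5⟩)
        (fun j hj h5 => gp3 r2 r3 n13 o1 o2 o3 hkL hj w1 h5) with rfl | rfl
      · exact hfour n13 o2 r2 r3 w1 b1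
      · exact hfour n13 o2 r2 r3 w1 b2
    · push Not at hw
      have hw3 : w ≠ y0 := by
        rintro rfl
        exact hG.tri x1 x2 w r2 r3 (hG.symm _ _ w1)
      have hw1 : w ≠ x1 := (ne w1).symm
      have hOP : OP R c [w, x1, x2, y0] := by
        refine ⟨?_, ?_, ?_⟩
        · simp [hw1, w3, hw3, n12, n13, n23]
        · simp [hG.symm _ _ w1, r2, r3]
        · intro v hv
          simp only [List.mem_cons, List.not_mem_nil, or_false] at hv
          rcases hv with rfl | rfl | rfl | rfl <;> assumption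
      obtain ⟨k1, k2, hk, hk2, d1, d2⟩ := end_two hG h hnc hOP hmax
      have key : ∀ k, k < L → R w (c k) → (k ≠ i1 ∧ k ≠ i2) ∧ (k = j1 ∨ k = j2) := by
        intro k hkL d
        have e1 : ∀ i, i < L → R x0 (c i) → k ≠ i ∧ D L k i 3 := fun i hi h5 =>
          ⟨by rintro rfl; exact hfour w2 o1 (hG.symm _ _ w1) (hG.symm _ _ r1) d h5,
            (gp3 (hG.symm _ _ w1) (hG.symm _ _ r1) w2 hw o1 o0 hkL hi d h5).mono (by omega)⟩
        refine ⟨⟨(e1 _ hi1 a1).1, (e1 _ hi2 a2).1⟩, fin k hkL e1 fun j hj h5 => ?_⟩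
        have h6 : D L k j 5 := by
          refine gap hG h hnl hOP (by simp) hkL hj ?_ ?_
          · simpa using d
          · simpa using h5
        exact h6.mono (by omega)
      obtain ⟨⟨f1, f2⟩, f3⟩ := key k1 (by omega) d1
      obtain ⟨⟨f4, f5⟩, f6⟩ := key k2 hk2 d2
      omega

end Pool.Agent.W5h14.Circ
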